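import Pool.Agent.Helper29.E3.St1

/-!
# E3 (MP_3923f3_nt), module TCL: from residue classes to the points `(θ + j) / D`
-/

set_option autoImplicit false

namespace Pool.Agent.Helper16.E3

open Finset ArithmeticFunction
open Pool.Agent.Helper29.E3 Pool.Agent.Helper49.PC
open Pool.Agent.Helper48.BK (ex th lz Vz Pz gs nd Apx AdN Sol thd)

/-- the divisor sum `∑_{k ≤ J, k ∣ n} c k` -/
noncomputable def FF (c : ℕ → ℝ) (J n : ℕ) : ℂ :=
  ∑ k ∈ Ioc 0 J, if k ∣ n then ((c k : ℝ) : ℂ) else 0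

/-- the multiples of `k` in `(0, y]` -/
theorem sum_mult (k y : ℕ) (hk : 0 < k) (g : ℕ → ℂ) :
    ∑ n ∈ (Ioc 0 y).filter (fun n => k ∣ n), g n = ∑ m ∈ Ioc 0 (y / k), g (k * m) := by
  symm
  refine Finset.sum_nbij' (fun m => k * m) (fun n => n / k) ?_ ?_ ?_ ?_ ?_
  · intro m hm
    rw [mem_Ioc] at hm
    rw [mem_filter, mem_Ioc]
    refine ⟨⟨Nat.mul_pos hk hm.1, ?_⟩, dvd_mul_right k m⟩
    calc k * m ≤ k * (y / k) := Nat.mul_le_mul_left k hm.2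
      _ ≤ y := Nat.mul_div_le y k
  · intro n hn
    rw [mem_filter, mem_Ioc] at hn
    rw [mem_Ioc]
    exact ⟨Nat.div_pos (Nat.le_of_dvd hn.1.1 hn.2) hk, Nat.div_le_div_right hn.1.2⟩
  · intro m _
    exact Nat.mul_div_cancel_left m hk
  · intro n hn
    rw [mem_filter] at hn
    exact Nat.mul_div_cancel' hn.2
  · intro m _
    rfl

/-- sums over `k m ≤ y` as sums over `n ≤ y` -/
theorem sum_FF (c : ℕ → ℝ) (J y : ℕ) (G : ℕ → ℂ) :
    ∑ k ∈ Ioc 0 J, ∑ m ∈ Ioc 0 (y / k), ((c k : ℝ) : ℂ) * G (k * m) =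
      ∑ n ∈ Ioc 0 y, FF c J n * G n := by
  have h1 : ∀ k ∈ Ioc 0 J, ∑ m ∈ Ioc 0 (y / k), ((c k : ℝ) : ℂ) * G (k * m) =
      ∑ n ∈ Ioc 0 y, if k ∣ n then ((c k : ℝ) : ℂ) * G n else 0 := by
    intro k hk
    rw [mem_Ioc] at hk
    rw [← Finset.sum_filter, sum_mult k y hk.1 (fun n => ((c k : ℝ) : ℂ) * G n)]
  rw [Finset.sum_congr rfl h1, Finset.sum_comm]
  refine Finset.sum_congr rfl fun n _ => ?_
  unfold FF
  rw [Finset.sum_mul]
  refine Finset.sum_congr rfl fun k _ => ?_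
  split_ifs
  · rfl
  · rw [zero_mul]

/-- the sum over one residue class -/
theorem class_sum (c : ℕ → ℝ) (J y D l : ℕ) (θ : ℝ) :
    (∑ k ∈ Ioc 0 J, ∑ m ∈ Ioc 0 (y / k),
      if k * m ≡ l [MOD D] then ((c k * (1 : ℝ) : ℝ) : ℂ) * ex (k * m * (θ / D)) else 0) =
    ∑ n ∈ (Ioc 0 y).filter (fun n => n ≡ l [MOD D]), FF c J n * ex (n * (θ / D)) := by
  have h1 := sum_FF c J y (fun n => if n ≡ l [MOD D] then ex (n * (θ / D)) else 0)
  rw [Finset.sum_filter]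
  calc (∑ k ∈ Ioc 0 J, ∑ m ∈ Ioc 0 (y / k),
      if k * m ≡ l [MOD D] then ((c k * (1 : ℝ) : ℝ) : ℂ) * ex (k * m * (θ / D)) else 0)
      = ∑ k ∈ Ioc 0 J, ∑ m ∈ Ioc 0 (y / k), ((c k : ℝ) : ℂ) *
          (if k * m ≡ l [MOD D] then ex (((k * m : ℕ) : ℝ) * (θ / D)) else 0) := by
        refine Finset.sum_congr rfl fun k _ => Finset.sum_congr rfl fun m _ => ?_
        split_ifs
        · rw [mul_one, Nat.cast_mul]
        · rw [mul_zero]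
    _ = ∑ n ∈ Ioc 0 y, FF c J n * (if n ≡ l [MOD D] then ex (n * (θ / D)) else 0) := h1
    _ = ∑ n ∈ Ioc 0 y, if n ≡ l [MOD D] then FF c J n * ex (n * (θ / D)) else 0 := by
        refine Finset.sum_congr rfl fun n _ => ?_
        split_ifs
        · rfl
        · rw [mul_zero]

/-- the exponential sum of the divisor sum -/
theorem Sc_le (hGeo1 : Pool.Agent.Helper48.BK.StGeo1) (c : ℕ → ℝ) (M D J y : ℕ) (T β : ℝ)
    (hy : y ≤ D * M) (hT : 0 ≤ T) (hc : ∀ k ≤ J, |c k| ≤ T) :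
    ‖Sc (FF c J) y β‖ ≤ T * ∑ k ∈ Icc 1 J, gs (((D * M : ℕ) : ℝ) / k) (k * β) := by
  have h1 : Sc (FF c J) y β =
      ∑ k ∈ Ioc 0 J, ((c k : ℝ) : ℂ) * ∑ m ∈ Ioc 0 (y / k), ex (m * (k * β)) := by
    unfold Sc
    rw [← sum_FF c J y (fun n => ex (n * β))]
    refine Finset.sum_congr rfl fun k _ => ?_
    rw [Finset.mul_sum]
    refine Finset.sum_congr rfl fun m _ => ?_
    congr 2
    push_cast
    ring
  have hI : Icc 1 J = Ioc 0 J := rfl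
  rw [h1, hI, Finset.mul_sum]
  refine (norm_sum_le _ _).trans (Finset.sum_le_sum fun k hk => ?_)
  rw [mem_Ioc] at hk
  rw [norm_mul, Complex.norm_real, Real.norm_eq_abs]
  have hk0 : (0 : ℝ) < k := by exact_mod_cast hk.1
  have h2 : ‖∑ m ∈ Ioc 0 (y / k), ex (m * (k * β))‖ ≤ gs ((y / k : ℕ) : ℝ) (k * β) := by
    have := hGeo1.1 0 (y / k) (k * β)
    rwa [zero_add] at this
  have h3 : ((y / k : ℕ) : ℝ) ≤ ((D * M : ℕ) : ℝ) / k := by
    refine Nat.cast_div_le.trans ?_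
    have : (y : ℝ) ≤ ((D * M : ℕ) : ℝ) := by exact_mod_cast hy
    exact div_le_div_of_nonneg_right this hk0.le
  have h4 := hGeo1.2.1 ((y / k : ℕ) : ℝ) (((D * M : ℕ) : ℝ) / k) (k * β) (Nat.cast_nonneg _) h3
  exact mul_le_mul (hc k hk.2) (h2.trans h4) (norm_nonneg _) hT

/-- module TCL -/
theorem hTCL (hPV : StPV) (hGeo1 : Pool.Agent.Helper48.BK.StGeo1) : StTCL := by
  intro M D J y θ T c hD hy hT hc
  have h1 : ∑ l ∈ Un D, ‖∑ k ∈ Ioc 0 J, ∑ m ∈ Ioc 0 (y / k),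
      (if k * m ≡ l [MOD D] then ((c k * (1 : ℝ) : ℝ) : ℂ) * ex (k * m * (θ / D)) else 0)‖ ^ 2 ≤
      ∑ l ∈ range D, ‖∑ n ∈ (Ioc 0 y).filter (fun n => n ≡ l [MOD D]),
        FF c J n * ex (n * (θ / D))‖ ^ 2 := by
    calc ∑ l ∈ Un D, ‖∑ k ∈ Ioc 0 J, ∑ m ∈ Ioc 0 (y / k),
          (if k * m ≡ l [MOD D] then ((c k * (1 : ℝ) : ℝ) : ℂ) * ex (k * m * (θ / D)) else 0)‖ ^ 2
        = ∑ l ∈ Un D, ‖∑ n ∈ (Ioc 0 y).filter (fun n => n ≡ l [MOD D]),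
            FF c J n * ex (n * (θ / D))‖ ^ 2 := by
          refine Finset.sum_congr rfl fun l _ => ?_
          rw [class_sum]
      _ ≤ _ := Finset.sum_le_sum_of_subset_of_nonneg (Finset.filter_subset _ _)
          (fun _ _ _ => by positivity)
  have h2 := hPV (FF c J) y D θ hD
  calc (D : ℝ) * ∑ l ∈ Un D, ‖∑ k ∈ Ioc 0 J, ∑ m ∈ Ioc 0 (y / k),
      (if k * m ≡ l [MOD D] then ((c k * (1 : ℝ) : ℝ) : ℂ) * ex (k * m * (θ / D)) else 0)‖ ^ 2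
      ≤ D * ∑ l ∈ range D, ‖∑ n ∈ (Ioc 0 y).filter (fun n => n ≡ l [MOD D]),
        FF c J n * ex (n * (θ / D))‖ ^ 2 := mul_le_mul_of_nonneg_left h1 (Nat.cast_nonneg D)
    _ = NN (FF c J) y D θ := h2.symm
    _ ≤ T ^ 2 * ∑ j ∈ range D,
        (∑ k ∈ Icc 1 J, gs (((D * M : ℕ) : ℝ) / k) (k * ((θ + j) / D))) ^ 2 := by
      unfold NN
      rw [Finset.mul_sum]
      refine Finset.sum_le_sum fun j _ => ?_
      rw [← mul_pow]
      exact pow_le_pow_left₀ (norm_nonneg _) (Sc_le hGeo1 c M D J y T ((θ + j) / D) hy hT hc) 2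

end Pool.Agent.Helper16.E3
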